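import Pool.Agent.Helper2.LD.St1

/-!
# LD project: module Ext3 (the third mark on the plain level)
-/

set_option autoImplicit false

namespace Pool.Agent.Helper4.LD

open Pool.Agent.Helper2.LD

/-! ## Comparison of small values -/

/-- Same small values. -/
private def Eqv (t : ℕ) (x y : ℕ∞) : Prop := ∀ d : ℕ, d ≤ t → (x = (d : ℕ∞) ↔ y = (d : ℕ∞))

private lemma eqv_of_eq (t : ℕ) {x y : ℕ∞} (h : x = y) : Eqv t x y := by
  intro d _
  rw [h]

private lemma eqv_of_gt (t : ℕ) {x y : ℕ∞} (hx : (t : ℕ∞) < x) (hy : (t : ℕ∞) < y) :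
    Eqv t x y := by
  intro d hd
  constructor
  · intro h
    rw [h] at hx
    have := Nat.cast_lt.mp hx
    omega
  · intro h
    rw [h] at hy
    have := Nat.cast_lt.mp hy
    omega

private lemma eqv_add (t M p q : ℕ) (hM : t ≤ M) {x y : ℕ∞}
    (h : ∀ d : ℕ, d ≤ M → (x = (d : ℕ∞) ↔ y = (d : ℕ∞))) :
    Eqv t ((p : ℕ∞) + x + (q : ℕ∞)) ((p : ℕ∞) + y + (q : ℕ∞)) := by
  intro d hd
  constructor
  · intro hx
    cases x with
    | top => simp at hx
    | coe a =>
      have h1 : p + a + q = d := by exact_mod_cast hx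
      have h2 := (h a (by omega)).1 rfl
      rw [h2]
      exact_mod_cast h1
  · intro hy
    cases y with
    | top => simp at hy
    | coe a =>
      have h1 : p + a + q = d := by exact_mod_cast hy
      have h2 := (h a (by omega)).2 rfl
      rw [h2]
      exact_mod_cast h1

/-! ## Sets and lists -/

private lemma exists_set {K : Type} [Fintype K] [DecidableEq K] (hK : 48 ≤ Fintype.card K)
    (F : Finset K) (hF : F.card ≤ 1) (A B : Option (Finset K)) (j : ℕ) (h3 : 3 ≤ j) (h5 : j ≤ 5) :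
    ∃ c : Finset K, c.card = j ∧ F ⊆ c ∧ some c ≠ A ∧ some c ≠ B := by
  classical
  have aux : ∀ A : Option (Finset K), ∃ A0 : Finset K, A0.card ≤ 5 ∧
      ∀ c : Finset K, c.card = j → (∃ x ∈ c, x ∉ A0) → some c ≠ A := by
    intro A
    cases A with
    | none => exact ⟨∅, by simp, by simp⟩
    | some a =>
      by_cases ha : a.card = j
      · refine ⟨a, by omega, ?_⟩
        rintro c _ ⟨x, hx, hxa⟩ h
        rw [Option.some.injEq] at h
        exact hxa (h ▸ hx)
      · refine ⟨∅, by simp, ?_⟩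
        intro c hc _ h
        rw [Option.some.injEq] at h
        exact ha (h ▸ hc)
  obtain ⟨A0, hA0, hA1⟩ := aux A
  obtain ⟨B0, hB0, hB1⟩ := aux B
  have hx : ∃ x : K, x ∉ A0 ∪ B0 := by
    by_contra hcon
    push Not at hcon
    have : (A0 ∪ B0) = Finset.univ := by
      ext x; simp only [Finset.mem_univ, iff_true]; exact hcon x
    have h1 : (A0 ∪ B0).card = Fintype.card K := by rw [this]; rfl
    have h2 := Finset.card_union_le A0 B0
    omega
  obtain ⟨x, hx⟩ := hx
  have hx1 : x ∉ A0 := fun h => hx (Finset.mem_union_left _ h)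
  have hx2 : x ∉ B0 := fun h => hx (Finset.mem_union_right _ h)
  have hc0 : (insert x F).card ≤ j := by
    have := Finset.card_insert_le x F
    omega
  obtain ⟨c, hc1, _, hc3⟩ := Finset.exists_subsuperset_card_eq (Finset.subset_univ (insert x F))
    hc0 (by rw [Finset.card_univ]; omega)
  refine ⟨c, hc3, (Finset.subset_insert x F).trans hc1, ?_, ?_⟩
  · exact hA1 c hc3 ⟨x, hc1 (Finset.mem_insert_self x F), hx1⟩
  · exact hB1 c hc3 ⟨x, hc1 (Finset.mem_insert_self x F), hx2⟩

private lemma exists_list {K : Type} [Fintype K] [DecidableEq K] (hK : 48 ≤ Fintype.card K)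
    (F : Finset K) (hF : F.card ≤ 1) (A B : Option (Finset K)) (n : ℕ) :
    ∃ l : List (Finset K), l.length = n ∧ okl l ∧ ∀ c ∈ l, F ⊆ c ∧ some c ≠ A ∧ some c ≠ B := by
  induction n with
  | zero => exact ⟨[], rfl, trivial, by simp⟩
  | succ n ih =>
    obtain ⟨l, h1, h2, h3⟩ := ih
    obtain ⟨c, hc1, hc2, hc3, hc4⟩ := exists_set hK F hF A B (3 + (l.length + 1) % 3)
      (by omega) (by omega)
    refine ⟨c :: l, by simp [h1], ⟨hc1, h2⟩, ?_⟩
    intro c' hc'
    rcases List.mem_cons.1 hc' with h | h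
    · rw [h]; exact ⟨hc2, hc3, hc4⟩
    · exact h3 c' h

private lemma last_ne {K : Type} {A : Option (Finset K)} {l : List (Finset K)} (hl : l ≠ [])
    (h : ∀ c ∈ l, some c ≠ A) : A ≠ l.getLast? := by
  intro h0
  rw [List.getLast?_eq_some_getLast hl] at h0
  exact h _ (List.getLast_mem hl) h0.symm

private lemma decomp {α : Type} (p q : List α) : ∃ a b w, p = a ++ w ∧ q = b ++ w ∧
    (a = [] ∨ b = [] ∨ a.getLast? ≠ b.getLast?) := by
  induction p using List.reverseRecOn generalizing q with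
  | nil => exact ⟨[], q, [], rfl, by simp, Or.inl rfl⟩
  | append_singleton p x ih =>
    rcases List.eq_nil_or_concat q with hq | ⟨q0, y, hq⟩
    · exact ⟨p ++ [x], [], [], by simp, by simp [hq], Or.inr (Or.inl rfl)⟩
    · by_cases hxy : x = y
      · obtain ⟨a, b, w, h1, h2, h3⟩ := ih q0
        refine ⟨a, b, w ++ [x], by simp [h1], ?_, h3⟩
        rw [hq, List.concat_eq_append, h2, hxy]
        simp
      · refine ⟨p ++ [x], q, [], by simp, by simp, Or.inr (Or.inr ?_)⟩
        rw [hq]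
        simp [hxy]

/-! ## Labels and heights -/

private lemma brL_ne {K V : Type} {h : ℕ} (lab : V → Finset K) (u : BrV K V h) (F : Finset K)
    (hne : u.1.2 ≠ []) (hF : ∀ c ∈ u.1.2, F ⊆ c) : F ⊆ brL lab u := by
  obtain ⟨⟨s, l⟩, hl, ho⟩ := u
  cases l with
  | nil => exact absurd rfl hne
  | cons c l => exact hF c (by simp)

private lemma brL_nil {K V : Type} {h : ℕ} (lab : V → Finset K) (u : BrV K V h)
    (hne : u.1.2 = []) : brL lab u = lab u.1.1 := by
  obtain ⟨⟨s, l⟩, hl, ho⟩ := u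
  simp only at hne
  subst hne
  rfl

private lemma brL_congr {K V V' : Type} {h : ℕ} (lab : V → Finset K) (lab' : V' → Finset K)
    (u : BrV K V h) (u' : BrV K V' h) (hl : u.1.2 = u'.1.2)
    (hs : u.1.2 = [] → lab u.1.1 = lab' u'.1.1) :
    brL lab u = brL lab' u' := by
  obtain ⟨⟨s, l⟩, h1, ho⟩ := u
  obtain ⟨⟨s', l'⟩, h1', ho'⟩ := u'
  simp only at hl hs
  subst hl
  cases l with
  | nil => exact hs rfl
  | cons c l => rfl

/-! ## Distances -/

private lemma dist_ne (hB : StBrD) {K V : Type} (S : SimpleGraph V) (h : ℕ) (u v : BrV K V h)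
    (hne : u.1.1 ≠ v.1.1) : (brG K S h).edist u v =
      (u.1.2.length : ℕ∞) + S.edist u.1.1 v.1.1 + (v.1.2.length : ℕ∞) := (hB S h u v).1 hne

private lemma dist_last (hB : StBrD) {K V : Type} (S : SimpleGraph V) (h : ℕ) (u v : BrV K V h)
    (he : u.1.1 = v.1.1) (hne : v.1.2 = [] ∨ u.1.2.getLast? ≠ v.1.2.getLast?) :
    (brG K S h).edist u v = ((u.1.2.length + v.1.2.length : ℕ) : ℕ∞) := by
  refine (hB S h u v).2 u.1.2 v.1.2 [] he (by simp) (by simp) ?_
  rcases hne with h | h
  · exact Or.inr (Or.inl h)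
  · exact Or.inr (Or.inr h)

private lemma dist_same (hB : StBrD) {K V V' : Type} (S : SimpleGraph V) (S' : SimpleGraph V')
    (h : ℕ) (u v : BrV K V h) (u' v' : BrV K V' h) (he : u.1.1 = v.1.1) (he' : u'.1.1 = v'.1.1)
    (hu : u.1.2 = u'.1.2) (hv : v.1.2 = v'.1.2) :
    (brG K S h).edist u v = (brG K S' h).edist u' v' := by
  obtain ⟨a, b, w, h1, h2, h3⟩ := decomp u.1.2 v.1.2
  rw [(hB S h u v).2 a b w he h1 h2 h3, (hB S' h u' v').2 a b w he' (hu ▸ h1) (hv ▸ h2) h3]

/-- A point on a geodesic. -/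
private lemma exists_mid {V : Type} (S : SimpleGraph V) (s t : V) (p q : ℕ)
    (h : S.edist s t = ((p + q : ℕ) : ℕ∞)) :
    ∃ z, S.edist s z = (p : ℕ∞) ∧ S.edist z t = (q : ℕ∞) := by
  obtain ⟨w, hw⟩ := SimpleGraph.exists_walk_of_edist_eq_coe h
  have hw2 : (w.drop p).length = q := by
    rw [SimpleGraph.Walk.drop_length]; omega
  have hw1 : (w.take p).length = p := by
    rw [SimpleGraph.Walk.take_length]; omega
  have h1 : S.edist s (w.getVert p) ≤ (p : ℕ∞) := by
    have := SimpleGraph.edist_le (w.take p)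
    rwa [hw1] at this
  have h2 : S.edist (w.getVert p) t ≤ (q : ℕ∞) := by
    have := SimpleGraph.edist_le (w.drop p)
    rwa [hw2] at this
  have h3 : ((p + q : ℕ) : ℕ∞) ≤ S.edist s (w.getVert p) + S.edist (w.getVert p) t := by
    rw [← h]; exact SimpleGraph.edist_triangle
  obtain ⟨a, ha⟩ : ∃ a : ℕ, S.edist s (w.getVert p) = (a : ℕ∞) := by
    cases hx : S.edist s (w.getVert p) with
    | top => rw [hx] at h1; simp at h1
    | coe a => exact ⟨a, rfl⟩
  obtain ⟨b, hb⟩ : ∃ b : ℕ, S.edist (w.getVert p) t = (b : ℕ∞) := by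
    cases hx : S.edist (w.getVert p) t with
    | top => rw [hx] at h2; simp at h2
    | coe a => exact ⟨a, rfl⟩
  rw [ha] at h1 h3
  rw [hb] at h2 h3
  have h1' : a ≤ p := by exact_mod_cast h1
  have h2' : b ≤ q := by exact_mod_cast h2
  have h3' : p + q ≤ a + b := by exact_mod_cast h3
  refine ⟨w.getVert p, ?_, ?_⟩
  · rw [ha]; congr 1; omega
  · rw [hb]; congr 1; omega

private lemma parity {V : Type} (S : SimpleGraph V) (hS : Bip S) (x y z : V) (a b c : ℕ)
    (h1 : S.edist x y = (a : ℕ∞)) (h2 : S.edist y z = (b : ℕ∞)) (h3 : S.edist x z = (c : ℕ∞)) :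
    Even (a + b + c) := by
  obtain ⟨col, hcol⟩ := hS
  let C : S.Coloring Bool := SimpleGraph.Coloring.mk col (fun {u v} huv => hcol u v huv)
  obtain ⟨w1, hw1⟩ := SimpleGraph.exists_walk_of_edist_eq_coe h1
  obtain ⟨w2, hw2⟩ := SimpleGraph.exists_walk_of_edist_eq_coe h2
  obtain ⟨w3, hw3⟩ := SimpleGraph.exists_walk_of_edist_eq_coe h3
  have e1 := C.even_length_iff_congr w1
  have e2 := C.even_length_iff_congr w2
  have e3 := C.even_length_iff_congr w3
  rw [hw1] at e1
  rw [hw2] at e2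
  rw [hw3] at e3
  have e : Even (a + b + c) ↔
      (((C x = true ↔ C y = true) ↔ (C y = true ↔ C z = true)) ↔ (C x = true ↔ C z = true)) := by
    rw [Nat.even_add, Nat.even_add, e1, e2, e3]
  rw [e]
  generalize C x = p
  generalize C y = q
  generalize C z = r
  cases p <;> cases q <;> cases r <;> simp

/-! ## Symmetry -/

private lemma win_swap {K V : Type} (e : ℕ) (S : SimpleGraph V) (lab : V → Finset K) (s t : V)
    (p : ℕ) (κ : K) :
    Win e S lab t s p κ ↔ ∃ q, Win e S lab s t q κ ∧ S.edist s t = ((p + q : ℕ) : ℕ∞) ∧ p ≤ e := by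
  constructor
  · rintro ⟨q, hp, hq, hd, z, h1, h2, h3⟩
    refine ⟨q, ⟨p, hq, hp, ?_, z, ?_, ?_, h3⟩, ?_, hp⟩
    · rw [SimpleGraph.edist_comm, hd, Nat.add_comm]
    · rw [SimpleGraph.edist_comm, h2]
    · rw [SimpleGraph.edist_comm, h1]
    · rw [SimpleGraph.edist_comm, hd]
  · rintro ⟨q, ⟨p', hq, hp', hd, z, h1, h2, h3⟩, hd', hp⟩
    have hpp : p' = p := by
      rw [hd] at hd'
      have : q + p' = p + q := by exact_mod_cast hd'
      omega
    subst hpp
    refine ⟨q, hp, hq, ?_, z, ?_, ?_, h3⟩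
    · rw [SimpleGraph.edist_comm, hd']
    · rw [SimpleGraph.edist_comm, h2]
    · rw [SimpleGraph.edist_comm, h1]

private lemma pp_swap {K V V' : Type} {k : ℕ} {S : SimpleGraph V}
    {lab : V → Finset K} {S' : SimpleGraph V'} {lab' : V' → Finset K} {x y : BrV K V (HH k)}
    {x' y' : BrV K V' (HH k)} (h : PP k S lab S' lab' x y x' y') :
    PP k S lab S' lab' y x y' x' := by
  obtain ⟨h1, h2, h3, h4, h5, h6, h7⟩ := h
  refine ⟨h2, h1, h4, h3, ?_, ?_, ?_⟩
  · rw [eq_comm, h5, eq_comm]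
  · intro d hd
    rw [SimpleGraph.edist_comm, h6 d hd, SimpleGraph.edist_comm]
  · intro p κ
    rw [win_swap, win_swap]
    have hE : EE k ≤ NN k := by unfold EE; omega
    constructor
    · rintro ⟨q, hw, hd, hp⟩
      have hw' := (h7 q κ).1 hw
      obtain ⟨q', hq, _⟩ := id hw
      exact ⟨q, hw', (h6 (p + q) (by omega)).1 hd, hp⟩
    · rintro ⟨q, hw, hd, hp⟩
      have hw' := (h7 q κ).2 hw
      obtain ⟨q', hq, _⟩ := id hw
      exact ⟨q, hw', (h6 (p + q) (by omega)).2 hd, hp⟩

private lemma nat_of_le {x : ℕ∞} {t : ℕ} (h : x ≤ (t : ℕ∞)) : ∃ a : ℕ, x = (a : ℕ∞) ∧ a ≤ t := by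
  cases x with
  | top => simp at h
  | coe a => exact ⟨a, rfl, by exact_mod_cast h⟩

/-- One close mark. -/
private lemma caseOne (hB : StBrD) (k : ℕ) {K V V' : Type} [Fintype K] [DecidableEq K]
    (S : SimpleGraph V) (lab : V → Finset K) (S' : SimpleGraph V') (lab' : V' → Finset K)
    (hK : 48 ≤ Fintype.card K) (x1 x2 : BrV K V (HH k)) (x1' x2' : BrV K V' (HH k))
    (hPP : PP k S lab S' lab' x1 x2 x1' x2') (F : Finset K) (hF : F.card ≤ 1) (t : ℕ)
    (ht : t ≤ NN k) (x3 : BrV K V (HH k)) (h31 : x1.1.1 ≠ x3.1.1) (h32 : x2.1.1 ≠ x3.1.1)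
    (hl3 : x3.1.2.length < NN k) (hd1 : (brG K S (HH k)).edist x1 x3 ≤ (t : ℕ∞))
    (h2 : x1.1.1 = x2.1.1 ∨ (t : ℕ∞) < (brG K S (HH k)).edist x2 x3) :
    ∃ x3' : BrV K V' (HH k), F ⊆ brL lab' x3' ∧
      Eqv t ((brG K S (HH k)).edist x1 x3) ((brG K S' (HH k)).edist x1' x3') ∧
      Eqv t ((brG K S (HH k)).edist x2 x3) ((brG K S' (HH k)).edist x2' x3') ∧
      min (brH x3) (NN k) = min (brH x3') (NN k) := by
  obtain ⟨p1, p2, p3, p4, p5, p6, p7⟩ := hPP
  have D1 := dist_ne hB S (HH k) x1 x3 h31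
  have D2 := dist_ne hB S (HH k) x2 x3 h32
  obtain ⟨d1, hd1e, hd1t⟩ := nat_of_le hd1
  -- the distance from `s1` to `s3`
  obtain ⟨a, ha⟩ : ∃ a : ℕ, S.edist x1.1.1 x3.1.1 = (a : ℕ∞) := by
    cases hx : S.edist x1.1.1 x3.1.1 with
    | top => rw [D1, hx] at hd1; simp at hd1
    | coe a => exact ⟨a, rfl⟩
  have ha0 : a ≠ 0 := by
    intro h0
    rw [h0] at ha
    exact h31 (SimpleGraph.edist_eq_zero_iff.1 (by exact_mod_cast ha))
  have hd1' : x1.1.2.length + a + x3.1.2.length = d1 := by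
    rw [D1, ha] at hd1e
    exact_mod_cast hd1e
  have hHH : HH k = 2 * NN k := rfl
  obtain ⟨l, hl1, hl2, hl3'⟩ := exists_list hK F hF x1.1.2.getLast? x2.1.2.getLast?
    (a + x3.1.2.length)
  have hlne : l ≠ [] := by
    intro h0
    rw [h0] at hl1
    simp at hl1
    omega
  let x3' : BrV K V' (HH k) := ⟨(x1'.1.1, l), by
    show l.length ≤ HH k
    omega, hl2⟩
  have e1 : (brG K S' (HH k)).edist x1' x3' = ((x1'.1.2.length + l.length : ℕ) : ℕ∞) :=
    dist_last hB S' (HH k) x1' x3' rfl (Or.inr (by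
      rw [← p1]
      exact last_ne hlne fun c hc => (hl3' c hc).2.1))
  refine ⟨x3', ?_, ?_, ?_, ?_⟩
  · exact brL_ne lab' x3' F hlne fun c hc => (hl3' c hc).1
  · apply eqv_of_eq
    rw [e1, hd1e, ← p1]
    congr 1
    omega
  · by_cases h12 : x1.1.1 = x2.1.1
    · have e2 : (brG K S' (HH k)).edist x2' x3' = ((x2'.1.2.length + l.length : ℕ) : ℕ∞) :=
        dist_last hB S' (HH k) x2' x3' (p5.1 h12).symm (Or.inr (by
          rw [← p2]
          exact last_ne hlne fun c hc => (hl3' c hc).2.2))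
      apply eqv_of_eq
      rw [D2, ← h12, ha, e2, ← p2, hl1]
      push_cast
      ring
    · have h2' : (t : ℕ∞) < (brG K S (HH k)).edist x2 x3 := by
        rcases h2 with h | h
        · exact absurd h h12
        · exact h
      apply eqv_of_gt t h2'
      have hne : x2'.1.1 ≠ x1'.1.1 := fun h => h12 (p5.2 h.symm)
      rw [dist_ne hB S' (HH k) x2' x3' hne]
      show (t : ℕ∞) < (x2'.1.2.length : ℕ∞) + S'.edist x2'.1.1 x1'.1.1 + (l.length : ℕ∞)
      cases hx : S'.edist x2'.1.1 x1'.1.1 with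
      | top => simp
      | coe b =>
        by_cases hb : b ≤ 2 * NN k
        · have hb' : S.edist x1.1.1 x2.1.1 = (b : ℕ∞) := by
            rw [p6 b hb, SimpleGraph.edist_comm, hx]
          have htri : S.edist x2.1.1 x3.1.1 ≤ S.edist x2.1.1 x1.1.1 + S.edist x1.1.1 x3.1.1 :=
            SimpleGraph.edist_triangle
          rw [SimpleGraph.edist_comm (u := x2.1.1) (v := x1.1.1), hb', ha] at htri
          obtain ⟨c, hc, hcle⟩ := nat_of_le (t := b + a) (by exact_mod_cast htri)
          rw [D2, hc] at h2'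
          have h2n : t < x2.1.2.length + c + x3.1.2.length := by exact_mod_cast h2'
          rw [← p2]
          have : t < x2.1.2.length + b + l.length := by omega
          exact_mod_cast this
        · have : t < x2'.1.2.length + b + l.length := by omega
          exact_mod_cast this
  · have hH1 : brH x3 = HH k - x3.1.2.length := rfl
    have hH2 : brH x3' = HH k - l.length := rfl
    rw [hH1, hH2]
    omega

/-- The general form. -/
private lemma core (hB : StBrD) (k : ℕ) (hk : 40 ≤ k) {K V V' : Type} [Fintype K] [DecidableEq K]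
    (S : SimpleGraph V) (lab : V → Finset K) (S' : SimpleGraph V') (lab' : V' → Finset K)
    (hK : k + 8 ≤ Fintype.card K) (hS : Bip S) (hS' : Many V' (k + 2))
    (x1 x2 : BrV K V (HH k)) (x1' x2' : BrV K V' (HH k))
    (hPP : PP k S lab S' lab' x1 x2 x1' x2') (F : Finset K) (t : ℕ)
    (hF : (F = ∅ ∧ t = NN k) ∨ (∃ κ, F = {κ} ∧ t = EE k)) (x3 : BrV K V (HH k))
    (hx3 : F ⊆ brL lab x3) :
    ∃ x3' : BrV K V' (HH k), F ⊆ brL lab' x3' ∧
      Eqv t ((brG K S (HH k)).edist x1 x3) ((brG K S' (HH k)).edist x1' x3') ∧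
      Eqv t ((brG K S (HH k)).edist x2 x3) ((brG K S' (HH k)).edist x2' x3') ∧
      min (brH x3) (NN k) = min (brH x3') (NN k) := by
  have hK48 : 48 ≤ Fintype.card K := by omega
  have hEE : EE k ≤ NN k := by unfold EE; omega
  have hHH : HH k = 2 * NN k := rfl
  have hN : 1 ≤ NN k := Nat.one_le_two_pow
  have ht : t ≤ NN k := by
    rcases hF with ⟨_, h⟩ | ⟨κ, _, h⟩ <;> omega
  have hFc : F.card ≤ 1 := by
    rcases hF with ⟨h, _⟩ | ⟨κ, h, _⟩ <;> simp [h]
  have hPP0 := hPP
  obtain ⟨p1, p2, p3, p4, p5, p6, p7⟩ := hPP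
  by_cases h31 : x1.1.1 = x3.1.1
  · -- same hub as the first mark
    let x3' : BrV K V' (HH k) := ⟨(x1'.1.1, x3.1.2), x3.2.1, x3.2.2⟩
    refine ⟨x3', ?_, ?_, ?_, rfl⟩
    · have : brL lab x3 = brL lab' x3' := brL_congr lab lab' x3 x3' rfl fun _ => by
        rw [← h31]; exact p3
      rwa [← this]
    · exact eqv_of_eq t (dist_same hB S S' _ x1 x3 x1' x3' h31 rfl p1 rfl)
    · by_cases h12 : x1.1.1 = x2.1.1
      · exact eqv_of_eq t (dist_same hB S S' _ x2 x3 x2' x3' (h12.symm.trans h31)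
          (p5.1 h12).symm p2 rfl)
      · have h12' : x2'.1.1 ≠ x1'.1.1 := fun h => h12 (p5.2 h.symm)
        rw [dist_ne hB S _ x2 x3 (fun h => h12 (h31.trans h.symm)),
          dist_ne hB S' _ x2' x3' h12', ← p2, ← h31]
        apply eqv_add t (2 * NN k) _ _ (by omega)
        intro d hd
        rw [SimpleGraph.edist_comm, p6 d hd, SimpleGraph.edist_comm]
  by_cases h32 : x2.1.1 = x3.1.1
  · -- same hub as the second mark
    let x3' : BrV K V' (HH k) := ⟨(x2'.1.1, x3.1.2), x3.2.1, x3.2.2⟩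
    have h12 : x1.1.1 ≠ x2.1.1 := fun h => h31 (h.trans h32)
    have h12' : x1'.1.1 ≠ x2'.1.1 := fun h => h12 (p5.2 h)
    refine ⟨x3', ?_, ?_, ?_, rfl⟩
    · have : brL lab x3 = brL lab' x3' := brL_congr lab lab' x3 x3' rfl fun _ => by
        rw [← h32]; exact p4
      rwa [← this]
    · rw [dist_ne hB S _ x1 x3 h31, dist_ne hB S' _ x1' x3' h12', ← p1, ← h32]
      exact eqv_add t (2 * NN k) _ _ (by omega) p6
    · exact eqv_of_eq t (dist_same hB S S' _ x2 x3 x2' x3' h32 rfl p2 rfl)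
  -- a new hub
  have D1 := dist_ne hB S (HH k) x1 x3 h31
  have D2 := dist_ne hB S (HH k) x2 x3 h32
  have pos : ∀ {W : Type} (T : SimpleGraph W) (u v : W) (m n t : ℕ), u ≠ v →
      t ≤ n → (t : ℕ∞) < (m : ℕ∞) + T.edist u v + (n : ℕ∞) := by
    intro W T u v m n t huv htn
    have h0 := SimpleGraph.edist_pos_of_ne (G := T) huv
    cases hx : T.edist u v with
    | top => simp
    | coe b =>
      rw [hx] at h0
      have h0' : 0 < b := by exact_mod_cast h0
      have : t < m + b + n := by omega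
      exact_mod_cast this
  obtain ⟨s', hs'⟩ : ∃ s' : V', s' ≠ x1'.1.1 ∧ s' ≠ x2'.1.1 := by
    classical
    obtain ⟨v, hv⟩ := hS' {x1'.1.1, x2'.1.1} (by
      have := Finset.card_le_two (a := x1'.1.1) (b := x2'.1.1)
      omega)
    simp only [Finset.mem_insert, Finset.mem_singleton, not_or] at hv
    exact ⟨v, hv⟩
  by_cases hl3 : NN k ≤ x3.1.2.length
  · -- deep
    let x3' : BrV K V' (HH k) := ⟨(s', x3.1.2), x3.2.1, x3.2.2⟩
    refine ⟨x3', ?_, ?_, ?_, rfl⟩
    · have : brL lab x3 = brL lab' x3' := brL_congr lab lab' x3 x3' rfl fun h => by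
        rw [h] at hl3
        simp at hl3
        omega
      rwa [← this]
    · apply eqv_of_gt
      · rw [D1]; exact pos _ _ _ _ _ _ h31 (ht.trans hl3)
      · rw [dist_ne hB S' _ x1' x3' hs'.1.symm]
        exact pos _ _ _ _ _ _ hs'.1.symm (ht.trans hl3)
    · apply eqv_of_gt
      · rw [D2]; exact pos _ _ _ _ _ _ h32 (ht.trans hl3)
      · rw [dist_ne hB S' _ x2' x3' hs'.2.symm]
        exact pos _ _ _ _ _ _ hs'.2.symm (ht.trans hl3)
  push Not at hl3
  by_cases c1 : (brG K S (HH k)).edist x1 x3 ≤ (t : ℕ∞)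
  · by_cases c12 : x1.1.1 = x2.1.1 ∨ (t : ℕ∞) < (brG K S (HH k)).edist x2 x3
    · exact caseOne hB k S lab S' lab' hK48 x1 x2 x1' x2' hPP0 F hFc t ht x3 h31 h32 hl3 c1 c12
    · -- two close marks with different hubs
      push Not at c12
      obtain ⟨h12, c2⟩ := c12
      obtain ⟨d1, hd1e, hd1t⟩ := nat_of_le c1
      obtain ⟨d2, hd2e, hd2t⟩ := nat_of_le c2
      obtain ⟨a, ha⟩ : ∃ a : ℕ, S.edist x1.1.1 x3.1.1 = (a : ℕ∞) := by
        cases hx : S.edist x1.1.1 x3.1.1 with
        | top => rw [D1, hx] at c1; simp at c1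
        | coe a => exact ⟨a, rfl⟩
      obtain ⟨b, hb⟩ : ∃ b : ℕ, S.edist x2.1.1 x3.1.1 = (b : ℕ∞) := by
        cases hx : S.edist x2.1.1 x3.1.1 with
        | top => rw [D2, hx] at c2; simp at c2
        | coe a => exact ⟨a, rfl⟩
      have hb' : S.edist x3.1.1 x2.1.1 = (b : ℕ∞) := by rw [SimpleGraph.edist_comm, hb]
      have ha' : S.edist x3.1.1 x1.1.1 = (a : ℕ∞) := by rw [SimpleGraph.edist_comm, ha]
      have ha0 : a ≠ 0 := by
        intro h0
        rw [h0] at ha
        exact h31 (SimpleGraph.edist_eq_zero_iff.1 (by exact_mod_cast ha))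
      have hb0 : b ≠ 0 := by
        intro h0
        rw [h0] at hb
        exact h32 (SimpleGraph.edist_eq_zero_iff.1 (by exact_mod_cast hb))
      have hd1' : x1.1.2.length + a + x3.1.2.length = d1 := by
        rw [D1, ha] at hd1e
        exact_mod_cast hd1e
      have hd2' : x2.1.2.length + b + x3.1.2.length = d2 := by
        rw [D2, hb] at hd2e
        exact_mod_cast hd2e
      have tri1 : S.edist x1.1.1 x2.1.1 ≤ S.edist x1.1.1 x3.1.1 + S.edist x3.1.1 x2.1.1 :=
        SimpleGraph.edist_triangle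
      rw [ha, hb'] at tri1
      obtain ⟨c, hc, hcab⟩ := nat_of_le (t := a + b) (by exact_mod_cast tri1)
      have hc' : S.edist x2.1.1 x1.1.1 = (c : ℕ∞) := by rw [SimpleGraph.edist_comm, hc]
      have tri2 : S.edist x1.1.1 x3.1.1 ≤ S.edist x1.1.1 x2.1.1 + S.edist x2.1.1 x3.1.1 :=
        SimpleGraph.edist_triangle
      rw [ha, hb, hc] at tri2
      have tri2' : a ≤ c + b := by exact_mod_cast tri2
      have tri3 : S.edist x2.1.1 x3.1.1 ≤ S.edist x2.1.1 x1.1.1 + S.edist x1.1.1 x3.1.1 :=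
        SimpleGraph.edist_triangle
      rw [ha, hb, hc'] at tri3
      have tri3' : b ≤ c + a := by exact_mod_cast tri3
      have hpar := parity S hS x1.1.1 x3.1.1 x2.1.1 a b c ha hb' hc
      have hc1 : S'.edist x1'.1.1 x2'.1.1 = (c : ℕ∞) := (p6 c (by omega)).1 hc
      obtain ⟨m, hm⟩ := hpar
      -- `t0`, `p`, `q`
      obtain ⟨t0, p, q, ht0, hp, hq⟩ : ∃ t0 p q : ℕ, t0 + c = m ∧ p + t0 = a ∧ q + t0 = b := by
        refine ⟨m - c, a - (m - c), b - (m - c), ?_, ?_, ?_⟩ <;> omega
      have hpq : p + q = c := by omega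
      by_cases htl : 1 ≤ t0 + x3.1.2.length
      · obtain ⟨z, hz1, hz2⟩ := exists_mid S' x1'.1.1 x2'.1.1 p q (by rw [hc1, hpq])
        have hz2' : S'.edist x2'.1.1 z = (q : ℕ∞) := by rw [SimpleGraph.edist_comm, hz2]
        obtain ⟨l, hl1, hl2, hl3'⟩ := exists_list hK48 F hFc x1.1.2.getLast? x2.1.2.getLast?
          (t0 + x3.1.2.length)
        have hlne : l ≠ [] := by
          intro h0
          rw [h0] at hl1
          simp at hl1
          omega
        let x3' : BrV K V' (HH k) := ⟨(z, l), by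
          show l.length ≤ HH k
          omega, hl2⟩
        refine ⟨x3', ?_, ?_, ?_, ?_⟩
        · exact brL_ne lab' x3' F hlne fun c hc => (hl3' c hc).1
        · apply eqv_of_eq
          by_cases hz : x1'.1.1 = z
          · rw [dist_last hB S' (HH k) x1' x3' hz (Or.inr (by
              rw [← p1]
              exact last_ne hlne fun c hc => (hl3' c hc).2.1)), hd1e, ← p1]
            have hp0 : p = 0 := by
              rw [← hz, SimpleGraph.edist_self] at hz1
              exact_mod_cast hz1.symm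
            congr 1
            show d1 = x1.1.2.length + l.length
            omega
          · rw [dist_ne hB S' (HH k) x1' x3' hz, hd1e, ← p1]
            show (d1 : ℕ∞) = (x1.1.2.length : ℕ∞) + S'.edist x1'.1.1 z + (l.length : ℕ∞)
            rw [hz1]
            have : d1 = x1.1.2.length + p + l.length := by omega
            exact_mod_cast this
        · apply eqv_of_eq
          by_cases hz : x2'.1.1 = z
          · rw [dist_last hB S' (HH k) x2' x3' hz (Or.inr (by
              rw [← p2]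
              exact last_ne hlne fun c hc => (hl3' c hc).2.2)), hd2e, ← p2]
            have hp0 : q = 0 := by
              rw [← hz, SimpleGraph.edist_self] at hz2'
              exact_mod_cast hz2'.symm
            congr 1
            show d2 = x2.1.2.length + l.length
            omega
          · rw [dist_ne hB S' (HH k) x2' x3' hz, hd2e, ← p2]
            show (d2 : ℕ∞) = (x2.1.2.length : ℕ∞) + S'.edist x2'.1.1 z + (l.length : ℕ∞)
            rw [hz2']
            have : d2 = x2.1.2.length + q + l.length := by omega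
            exact_mod_cast this
        · have hH1 : brH x3 = HH k - x3.1.2.length := rfl
          have hH2 : brH x3' = HH k - l.length := rfl
          rw [hH1, hH2]
          omega
      · -- on the geodesic
        have ht0 : t0 = 0 := by omega
        have hx30 : x3.1.2 = [] := by
          rw [← List.length_eq_zero_iff]; omega
        have hz : ∃ z, S'.edist x1'.1.1 z = (p : ℕ∞) ∧ S'.edist z x2'.1.1 = (q : ℕ∞) ∧
            F ⊆ lab' z := by
          rcases hF with ⟨hF, _⟩ | ⟨κ, hF, htE⟩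
          · obtain ⟨z, hz1, hz2⟩ := exists_mid S' x1'.1.1 x2'.1.1 p q (by rw [hc1, hpq])
            exact ⟨z, hz1, hz2, by rw [hF]; exact Finset.empty_subset _⟩
          · have hκ : κ ∈ lab x3.1.1 := by
              rw [brL_nil lab x3 hx30, hF, Finset.singleton_subset_iff] at hx3
              exact hx3
            have hw : Win (EE k) S lab x1.1.1 x2.1.1 p κ := by
              refine ⟨q, by omega, by omega, by rw [hc, hpq], x3.1.1, ?_, ?_, hκ⟩
              · rw [ha]; congr 1; omega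
              · rw [hb']; congr 1; omega
            obtain ⟨q', _, _, hq', z, hz1, hz2, hz3⟩ := (p7 p κ).1 hw
            have : q' = q := by
              rw [hc1] at hq'
              have : c = p + q' := by exact_mod_cast hq'
              omega
            subst this
            exact ⟨z, hz1, hz2, by rw [hF, Finset.singleton_subset_iff]; exact hz3⟩
        obtain ⟨z, hz1, hz2, hz3⟩ := hz
        have hz2' : S'.edist x2'.1.1 z = (q : ℕ∞) := by rw [SimpleGraph.edist_comm, hz2]
        have hzx1 : x1'.1.1 ≠ z := by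
          intro h
          rw [← h, SimpleGraph.edist_self] at hz1
          have : 0 = p := by exact_mod_cast hz1
          omega
        have hzx2 : x2'.1.1 ≠ z := by
          intro h
          rw [← h, SimpleGraph.edist_self] at hz2'
          have : 0 = q := by exact_mod_cast hz2'
          omega
        let x3' : BrV K V' (HH k) := ⟨(z, []), by
          show 0 ≤ HH k
          omega, trivial⟩
        refine ⟨x3', ?_, ?_, ?_, ?_⟩
        · rw [brL_nil lab' x3' rfl]; exact hz3
        · apply eqv_of_eq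
          rw [dist_ne hB S' (HH k) x1' x3' hzx1, D1, ← p1, ha, hx30]
          show _ = (x1.1.2.length : ℕ∞) + S'.edist x1'.1.1 z + (([] : List (Finset K)).length : ℕ∞)
          rw [hz1]
          congr 3
          omega
        · apply eqv_of_eq
          rw [dist_ne hB S' (HH k) x2' x3' hzx2, D2, ← p2, hb, hx30]
          show _ = (x2.1.2.length : ℕ∞) + S'.edist x2'.1.1 z + (([] : List (Finset K)).length : ℕ∞)
          rw [hz2']
          congr 3
          omega
        · have hH1 : brH x3 = HH k - x3.1.2.length := rfl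
          have hH2 : brH x3' = HH k - 0 := rfl
          rw [hH1, hH2, hx30]
          rfl
  · push Not at c1
    by_cases c2 : (brG K S (HH k)).edist x2 x3 ≤ (t : ℕ∞)
    · obtain ⟨x3', h1, h2, h3, h4⟩ := caseOne hB k S lab S' lab' hK48 x2 x1 x2' x1'
        (pp_swap hPP0) F hFc t ht x3 h32 h31 hl3 c2 (Or.inr c1)
      exact ⟨x3', h1, h3, h2, h4⟩
    · push Not at c2
      obtain ⟨l, hl1, hl2, hl3'⟩ := exists_list hK48 F hFc none none (NN k)
      have hlne : l ≠ [] := by
        intro h0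
        rw [h0] at hl1
        simp at hl1
        omega
      let x3' : BrV K V' (HH k) := ⟨(s', l), by
        show l.length ≤ HH k
        omega, hl2⟩
      refine ⟨x3', ?_, ?_, ?_, ?_⟩
      · exact brL_ne lab' x3' F hlne fun c hc => (hl3' c hc).1
      · apply eqv_of_gt t c1
        rw [dist_ne hB S' _ x1' x3' hs'.1.symm]
        exact pos _ _ _ _ _ _ hs'.1.symm (by show t ≤ l.length; omega)
      · apply eqv_of_gt t c2
        rw [dist_ne hB S' _ x2' x3' hs'.2.symm]
        exact pos _ _ _ _ _ _ hs'.2.symm (by show t ≤ l.length; omega)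
      · have hH1 : brH x3 = HH k - x3.1.2.length := rfl
        have hH2 : brH x3' = HH k - l.length := rfl
        rw [hH1, hH2]
        omega

theorem pExt3 (hB : StBrD) : StExt3 := by
  intro k hk K V V' _ _ S lab S' lab' hK hS hS' x1 x2 x1' x2' hPP
  constructor
  · intro x3
    obtain ⟨x3', _, h2, h3, h4⟩ := core hB k hk S lab S' lab' hK hS.1 hS'.2.2 x1 x2 x1' x2' hPP
      ∅ (NN k) (Or.inl ⟨rfl, rfl⟩) x3 (Finset.empty_subset _)
    exact ⟨x3', fun d hd => ⟨h2 d hd, h3 d hd⟩, h4⟩
  · intro x3 κ hκ _ _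
    obtain ⟨x3', h1, h2, h3, h4⟩ := core hB k hk S lab S' lab' hK hS.1 hS'.2.2 x1 x2 x1' x2' hPP
      {κ} (EE k) (Or.inr ⟨κ, rfl, rfl⟩) x3 (Finset.singleton_subset_iff.2 hκ)
    exact ⟨x3', Finset.singleton_subset_iff.1 h1, fun d hd => ⟨h2 d hd, h3 d hd⟩, h4⟩

end Pool.Agent.Helper4.LD
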